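import Mathlib
import Pool.Agent.H82.Final

/-!
# No large convex subset in closed surfaces with positive Ricci curvature

For every `c > 0` we construct a smooth Riemannian metric with strictly positive Ricci curvature
on the two-sphere such that every geodesically convex subset (any two of its points are joined by a
unique minimizing geodesic, which lies in the subset) has volume less than `c` times the total
volume.

The metric is `exp (2u)` times the round metric with `u = -κ √(s² + q²)`, where
`q (x) = Im ((x₀ + i x₁)ᵐ)`.  The reflections in the `m` great circles `q = 0` through the poles
(the ridges) are isometries, and the ridges are so sharp that no long arc of a ridge is minimizing.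
Hence a convex set meets each ridge in a set of tiny diameter; all its geodesics crossing a
ridge pass through a tiny window, which forces one side of the convex set to be thin.
-/

open MeasureTheory Set Pool.Agent.H82.St

namespace Pool.Agent.Results.MP_6c73b3_gt.NoLargeConvexSet

/-- For every `c > 0` there is a closed connected smooth Riemannian surface with strictly positive
Ricci curvature each of whose geodesically convex subsets has volume less than `c` times the total
volume. -/
theorem result : ∀ c : ℝ, 0 < c → ∃ (M : ClosedManifold (Rn 2)) (vol : Measure M.pts),
    IsFiniteMeasure vol ∧ IsRiemannianVolume M vol ∧ StrictlyPositiveRicci M ∧
      ∀ Γ : Set M.pts, GeodesicallyConvex Γ → vol Γ < ENNReal.ofReal c * vol univ :=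
  Pool.Agent.H82.main

end Pool.Agent.Results.MP_6c73b3_gt.NoLargeConvexSet
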